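import Pool.Agent.Q312.Mak.Sound

/-!
# MP_dcacc7_lc: a material tautology that is not acceptable

The truth-trees with parity are defined in `Pool/Agent/Q312/Mak/Basic.lean`.
-/

namespace Pool.Agent.Results.MP_dcacc7_lc.NotAcceptable

open Pool.Agent.Q312.Mak

/-- **Theorem.** The formula `(p ∧ ¬p) → q`, for different sentence letters `p` and `q`, is a
material tautology and it is not acceptable. -/
theorem result (p q : ℕ) (hpq : p ≠ q) :
    MaterialTautology (.imp (.and (.letter p) (.neg (.letter p))) (.letter q)) ∧
      ¬ Acceptable (.imp (.and (.letter p) (.neg (.letter p))) (.letter q)) := by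
  constructor
  · intro v
    simp only [Form.material]
    tauto
  · intro h
    obtain ⟨r, h1, h2⟩ := letter_sharing _ _ h
    simp only [Form.letters, Set.union_self, Set.mem_singleton_iff] at h1 h2
    exact hpq (h1.symm.trans h2)

end Pool.Agent.Results.MP_dcacc7_lc.NotAcceptable
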